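import Pool.Agent.W800.FS.Wd

/-!
# The form `conj dz_0 ∧ ... ∧ conj dz_{n-1}`
-/

open scoped Manifold ContDiff Topology

noncomputable section

namespace Pool.Agent.W800.FS.Det

open Pool.Agent.W491.FS Pool.Agent.W800.FS.Typ Pool.Agent.W800.FS.Wd

/-- the conjugate determinant as a multilinear map -/
def D0 (n : ℕ) : MultilinearMap ℝ (fun _ : Fin n => CN n) ℂ :=
  (Complex.conjAe.toLinearMap).compMultilinearMap
    ((Matrix.detRowAlternating (R := ℂ) (n := Fin n)).toMultilinearMap.restrictScalars ℝ)

theorem D0_apply (n : ℕ) (v : Fin n → CN n) :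
    D0 n v = starRingEnd ℂ (Matrix.det (Matrix.of v)) := rfl

/-- the conjugate determinant as a form -/
def D (n : ℕ) : Alt n n where
  toMultilinearMap := D0 n
  map_eq_zero_of_eq' v i j hij hne := by
    have h := (Matrix.detRowAlternating (R := ℂ) (n := Fin n)).map_eq_zero_of_eq v hij hne
    have h' : Matrix.det (Matrix.of v) = 0 := h
    show D0 n v = 0
    rw [D0_apply, h', map_zero]
  cont := by
    refine Complex.continuous_conj.comp ?_
    exact Continuous.matrix_det (continuous_id)

theorem D_apply (n : ℕ) (v : Fin n → CN n) :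
    D n v = starRingEnd ℂ (Matrix.det (Matrix.of v)) := rfl

theorem D_type (n : ℕ) : IsType 0 n (D n) := by
  intro l v
  rw [D_apply, D_apply]
  have h : Matrix.of (fun i => l • v i) = l • Matrix.of v := by
    ext i j
    rfl
  rw [h, Matrix.det_smul, map_mul, map_pow]
  simp

theorem D_ebt (n : ℕ) : D n (ebt n) = 1 := by
  rw [D_apply]
  have h : Matrix.of (ebt n) = (1 : Matrix (Fin n) (Fin n) ℂ) := by
    ext i j
    simp [ebt, eb, Matrix.one_apply, Pi.single_apply, eq_comm]
  rw [h, Matrix.det_one, map_one]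

theorem word_right (n : ℕ) (L : List (Fin n ⊕ Fin n)) (hL : L.length = n)
    (h : L.countP Sum.isLeft = 0) : ∃ c : ℂ, word L n = c • D n := by
  classical
  rw [List.countP_eq_zero] at h
  have h2 : ∀ i : Fin n, ∃ j : Fin n, L.get (i.cast hL.symm) = Sum.inr j := by
    intro i
    have := h _ (List.get_mem L (i.cast hL.symm))
    rcases hx : L.get (i.cast hL.symm) with j | j
    · rw [hx] at this
      simp at this
    · exact ⟨j, rfl⟩
  choose J hJ using h2
  refine ⟨starRingEnd ℂ (Matrix.det ((1 : Matrix (Fin n) (Fin n) ℂ).submatrix J id)), ?_⟩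
  ext v
  have hm : (L.map lt).length = n := by simpa using hL
  have e1 := wlist_det (L.map lt) n hm v
  have e2 : (Matrix.of fun i j : Fin n => (L.map lt).get (i.cast hm.symm) (v j)) =
      (((1 : Matrix (Fin n) (Fin n) ℂ).submatrix J id) * (Matrix.of v).transpose).map
        (starRingEnd ℂ) := by
    ext i j
    have e3 : (L.map lt).get (i.cast hm.symm) = dzb (J i) := by
      have : (L.map lt).get (i.cast hm.symm) = lt (L.get (i.cast hL.symm)) := by simp
      rw [this, hJ]
      rfl
    simp only [Matrix.of_apply, e3, dzb_apply, Matrix.map_apply]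
    congr 1
    simp [Matrix.mul_apply, Matrix.one_apply]
  have e4 : word L n v = _ := e1
  rw [e4, e2]
  have e5 := (starRingEnd ℂ).map_det
    ((((1 : Matrix (Fin n) (Fin n) ℂ).submatrix J id) * (Matrix.of v).transpose))
  have e6 : (starRingEnd ℂ).mapMatrix
    ((((1 : Matrix (Fin n) (Fin n) ℂ).submatrix J id) * (Matrix.of v).transpose)) =
      (((1 : Matrix (Fin n) (Fin n) ℂ).submatrix J id) * (Matrix.of v).transpose).map
        (starRingEnd ℂ) := rfl
  rw [← e6, ← e5, Matrix.det_mul, Matrix.det_transpose, map_mul]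
  rfl

theorem eq_smul_D (n : ℕ) (a : Alt n n) (ha : IsType 0 n a) : a = a (ebt n) • D n := by
  have h1 : Submodule.span ℂ (Set.range fun L : {L : List (Fin n ⊕ Fin n) // L.length = n} =>
      word L.1 n) ≤ (Submodule.span ℂ {D n}).comap (prjL n n 0) := by
    rw [Submodule.span_le]
    rintro _ ⟨⟨L, hL⟩, rfl⟩
    show prj n 0 (word L n) ∈ Submodule.span ℂ {D n}
    by_cases hc : L.countP Sum.isLeft = 0
    · obtain ⟨c, hc'⟩ := word_right n L hL hc
      rw [hc', prj_smul, prj_of_type 0 n _ (by omega) (D_type n)]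
      exact Submodule.smul_mem _ _ (Submodule.mem_span_singleton_self _)
    · rw [prj_of_type_ne 0 _ _ _ (by rw [count_add, hL]) (fun h => hc h.symm)
        (word_type L n hL)]
      exact Submodule.zero_mem _
  have h2 := h1 (mem_span_words n a)
  have h3 : prj n 0 a ∈ Submodule.span ℂ {D n} := h2
  rw [prj_of_type 0 n _ (by omega) ha] at h3
  obtain ⟨c, hc⟩ := Submodule.mem_span_singleton.1 h3
  have h4 : a (ebt n) = c := by
    rw [← hc, ContinuousAlternatingMap.smul_apply, D_ebt, smul_eq_mul, mul_one]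
  rw [h4, hc]

theorem main (_ : S_TYPE) : S_DET := fun n => ⟨D n, D_apply n, D_type n, eq_smul_D n⟩

end Pool.Agent.W800.FS.Det
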