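import Pool.Agent.W800.FS.Det

/-!
# The `(0,n)`-part of an exterior derivative
-/

open scoped Manifold ContDiff Topology

noncomputable section

namespace Pool.Agent.W800.FS.LocA

open Pool.Agent.W491.FS Pool.Agent.W800.FS.Typ Pool.Agent.W800.FS.Wd Pool.Agent.W800.FS.Det

variable {n k : ℕ}

theorem prj_wl_dz (j : Fin n) (b : Alt n k) : prj (k + 1) 0 (wl (dz j) b) = 0 := by
  conv_lhs => rw [← prj_sum_eq k b]
  rw [wl_sum_right, prj_sum]
  refine Finset.sum_eq_zero fun p hp => ?_
  have hp' : p ≤ k := by
    have := Finset.mem_range.1 hp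
    omega
  exact prj_of_type_ne 0 (p + 1) (k - p) _ (by omega) (by omega)
    (IsType.wl_holo (prj_type k p b hp') (l := dz j) (fun c v => by simp))

theorem prj_wl_dzb (j : Fin n) (b : Alt n k) :
    prj (k + 1) 0 (wl (dzb j) b) = wl (dzb j) (prj k 0 b) := by
  conv_lhs => rw [← prj_sum_eq k b]
  rw [wl_sum_right, prj_sum, Finset.sum_eq_single 0]
  · exact prj_of_type 0 (k + 1) _ (by omega)
      (IsType.wl_anti (prj_type k 0 b (by omega)) (l := dzb j) (fun c v => by simp))
  · intro p hp hne
    have hp' : p ≤ k := by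
      have := Finset.mem_range.1 hp
      omega
    exact prj_of_type_ne 0 p (k - p + 1) _ (by omega) (by omega)
      (IsType.wl_anti (prj_type k p b hp') (l := dzb j) (fun c v => by simp))
  · intro hnot
    exact absurd (Finset.mem_range.2 (by omega)) hnot

theorem wl_dzb_ebt (j : Fin (k + 1)) (b : Alt (k + 1) k) :
    wl (dzb j) b (ebt (k + 1)) = (-1 : ℂ) ^ (j : ℕ) * b (fun i => eb (j.succAbove i)) := by
  rw [wl_apply, Finset.sum_eq_single j]
  · congr 1
    have h1 : dzb j (ebt (k + 1) j) = 1 := by simp [ebt, eb]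
    rw [h1, one_mul]
    rfl
  · intro i _ hne
    have h1 : dzb j (ebt (k + 1) i) = 0 := by
      simp [ebt, eb, Ne.symm hne]
    rw [h1, zero_mul, mul_zero]
  · intro h
    exact absurd (Finset.mem_univ j) h

/-- evaluation at a tuple after the projection -/
def evP (n k p : ℕ) (v : Fin k → CN n) : Alt n k →L[ℝ] ℂ where
  toFun := fun a => prj k p a v
  map_add' := fun a b => by rw [prj_add]; rfl
  map_smul' := fun r a => by
    have h := (prjC n k p).map_smul r a
    have h' : prj k p (r • a) = r • prj k p a := h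
    rw [h']
    rfl
  cont := by
    refine LinearMap.continuous_of_finiteDimensional
      ({ toFun := fun a => prj k p a v
         map_add' := fun a b => by rw [prj_add]; rfl
         map_smul' := fun r a => by
          have h := (prjC n k p).map_smul r a
          have h' : prj k p (r • a) = r • prj k p a := h
          rw [h']
          rfl } : Alt n k →ₗ[ℝ] ℂ)

theorem evP_apply (p : ℕ) (v : Fin k → CN n) (a : Alt n k) : evP n k p v a = prj k p a v := rfl

theorem pdb_evP (j : Fin n) (p : ℕ) (v : Fin k → CN n) {f : CN n → Alt n k} {y : CN n}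
    (hf : DifferentiableAt ℝ f y) :
    prj k p (pdb j f y) v = pdb j (fun z => prj k p (f z) v) y := by
  have h1 : fderiv ℝ (fun z => prj k p (f z) v) y = (evP n k p v).comp (fderiv ℝ f y) :=
    ((evP n k p v).hasFDerivAt.comp y hf.hasFDerivAt).fderiv
  simp only [pdb, comp01]
  rw [h1, prj_smul, prj_add, prj_smul]
  rfl

theorem pd_evP (j : Fin n) (p : ℕ) (v : Fin k → CN n) {f : CN n → Alt n k} {y : CN n}
    (hf : DifferentiableAt ℝ f y) :
    prj k p (pd j f y) v = pd j (fun z => prj k p (f z) v) y := by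
  have h1 : fderiv ℝ (fun z => prj k p (f z) v) y = (evP n k p v).comp (fderiv ℝ f y) :=
    ((evP n k p v).hasFDerivAt.comp y hf.hasFDerivAt).fderiv
  have h2 : ∀ a b : Alt n k, prj k p (a - b) = prj k p a - prj k p b := fun a b =>
    (prjL n k p).map_sub a b
  simp only [pd, comp10]
  rw [h1, prj_smul, h2, prj_smul]
  rfl

theorem main (_ : S_TYPE) : S_LOCA := by
  intro k f y hf
  rw [extDeriv_decomp, prj_sum, ContinuousAlternatingMap.sum_apply]
  refine Finset.sum_congr rfl fun j _ => ?_
  rw [prj_add, prj_wl_dz, zero_add, prj_wl_dzb, wl_dzb_ebt, pdb_evP j 0 _ hf]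

end Pool.Agent.W800.FS.LocA
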