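import Pool.Agent.W800.FS.LocA

/-!
# Forms with prescribed divergence; closed forms of type `(0,n)`
-/

open scoped Manifold ContDiff Topology

noncomputable section

namespace Pool.Agent.W800.FS.LocB

open Pool.Agent.W491.FS Pool.Agent.W800.FS.Typ Pool.Agent.W800.FS.Wd Pool.Agent.W800.FS.Det
  Pool.Agent.W800.FS.LocA

variable {k : ℕ}

theorem det_minor (i c : Fin (k + 1)) :
    Matrix.det (Matrix.of fun r l : Fin k => (eb (i.succAbove r) : CN (k + 1)) (c.succAbove l)) =
      if i = c then 1 else 0 := by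
  split_ifs with h
  · subst h
    have : (Matrix.of fun r l : Fin k => (eb (i.succAbove r) : CN (k + 1)) (i.succAbove l)) =
        (1 : Matrix (Fin k) (Fin k) ℂ) := by
      ext r l
      simp [eb, Pi.single_apply, Matrix.one_apply, eq_comm]
    rw [this, Matrix.det_one]
  · obtain ⟨r, hr⟩ := Fin.exists_succAbove_eq (Ne.symm h)
    refine Matrix.det_eq_zero_of_row_eq_zero r fun l => ?_
    rw [Matrix.of_apply, hr]
    simp [eb, Fin.succAbove_ne]

/-- restriction to the coordinates different from `j` -/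
def R (j : Fin (k + 1)) : CN (k + 1) →L[ℝ] CN k :=
  ContinuousLinearMap.pi fun i => ContinuousLinearMap.proj (j.succAbove i)

@[simp] theorem R_apply (j : Fin (k + 1)) (v : CN (k + 1)) (i : Fin k) :
    R j v i = v (j.succAbove i) := rfl

/-- the form with one factor omitted -/
def DB (j : Fin (k + 1)) : Alt (k + 1) k := pb (D k) (R j)

theorem DB_type (j : Fin (k + 1)) : IsType 0 k (DB j) := by
  intro l v
  simp only [DB, ContinuousAlternatingMap.compContinuousLinearMap_apply]
  have e : (⇑(R j) ∘ fun i => l • v i) = fun i => l • (R j) (v i) := by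
    funext i
    rfl
  rw [e, D_type k l]
  rfl

theorem DB_apply (i j : Fin (k + 1)) :
    DB j (fun r => eb (i.succAbove r)) = if i = j then 1 else 0 := by
  simp only [DB, ContinuousAlternatingMap.compContinuousLinearMap_apply, D_apply]
  have := det_minor i j
  have e : Matrix.of (⇑(R j) ∘ fun r => (eb (i.succAbove r) : CN (k + 1))) =
      Matrix.of fun r l : Fin k => (eb (i.succAbove r) : CN (k + 1)) (j.succAbove l) := rfl
  rw [e, this]
  split_ifs <;> simp

theorem main (_ : S_TYPE) (_ : S_DET) (_ : S_LOCA) : S_LOCB := by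
  intro k b hb
  have hsm : ContDiff ℝ ∞ (fun z => ∑ j : Fin (k + 1), ((-1 : ℂ) ^ (j : ℕ) * b j z) • DB j) := by
    refine ContDiff.sum fun j _ => ?_
    exact (contDiff_const.mul (hb j)).smul contDiff_const
  refine ⟨fun z => ∑ j : Fin (k + 1), ((-1 : ℂ) ^ (j : ℕ) * b j z) • DB j, hsm, ?_, ?_⟩
  · intro z hz
    refine Finset.sum_eq_zero fun j _ => ?_
    rw [hz j, mul_zero]
    ext v
    simp
  · intro z
    rw [LocA.main Typ.main k _ z ((hsm.contDiffAt).differentiableAt (by simp))]
    refine Finset.sum_congr rfl fun j _ => ?_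
    have e : (fun z => prj k 0 (∑ j : Fin (k + 1), ((-1 : ℂ) ^ (j : ℕ) * b j z) • DB j)
        (fun i => eb (j.succAbove i))) = fun z => (-1 : ℂ) ^ (j : ℕ) * b j z := by
      funext z
      have ht : IsType 0 k (∑ j : Fin (k + 1), ((-1 : ℂ) ^ (j : ℕ) * b j z) • DB j) :=
        IsType.sum _ fun j _ => (DB_type j).smul _
      rw [prj_of_type 0 k _ (by omega) ht, ContinuousAlternatingMap.sum_apply]
      rw [Finset.sum_eq_single j]
      · rw [ContinuousAlternatingMap.smul_apply, DB_apply]
        simp
      · intro i _ hne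
        rw [ContinuousAlternatingMap.smul_apply, DB_apply, if_neg (Ne.symm hne), smul_zero]
      · intro h
        exact absurd (Finset.mem_univ j) h
    rw [e]
    have hd : DifferentiableAt ℝ (b j) z := ((hb j).contDiffAt).differentiableAt (by simp)
    have h1 : fderiv ℝ (fun z => (-1 : ℂ) ^ (j : ℕ) * b j z) z =
        (-1 : ℂ) ^ (j : ℕ) • fderiv ℝ (b j) z := by
      exact fderiv_const_mul hd _
    simp only [pdb, comp01]
    rw [h1]
    simp only [smul_apply, smul_eq_mul]
    have h2 : ((-1 : ℂ) ^ (j : ℕ)) * (-1 : ℂ) ^ (j : ℕ) = 1 := by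
      rw [← mul_pow]; simp
    linear_combination ((1 / 2 : ℂ) * ((fderiv ℝ (b j) z) (eb j) +
      Complex.I * (fderiv ℝ (b j) z) (Complex.I • eb j))) * h2

end Pool.Agent.W800.FS.LocB
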