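import Pool.Agent.W800.FS.LocB

/-!
# Closed forms of type `(0,n)`
-/

open scoped Manifold ContDiff Topology

noncomputable section

namespace Pool.Agent.W800.FS.LocC

open Pool.Agent.W491.FS Pool.Agent.W800.FS.Typ Pool.Agent.W800.FS.Wd Pool.Agent.W800.FS.Det
  Pool.Agent.W800.FS.LocA Pool.Agent.W800.FS.LocB

theorem wl_dzb_D (n : ℕ) (j : Fin n) : wl (dzb j) (D n) = 0 := by
  have h1 : IsType 0 (n + 1) (wl (dzb j) (D n)) :=
    IsType.wl_anti (D_type n) (l := dzb j) (fun c v => by simp)
  rw [← prj_of_type 0 (n + 1) _ (by omega) h1]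
  exact prj_van (n + 1) 0 _ (by omega) (by omega)

theorem wl_dz_D (k : ℕ) (i : Fin (k + 1)) (u : CN (k + 1)) :
    wl (dz i) (D (k + 1)) (Fin.cons u (ebt (k + 1))) = u i - starRingEnd ℂ (u i) := by
  rw [wl_apply, Fin.sum_univ_succ]
  have h0 : (-1 : ℂ) ^ ((0 : Fin (k + 2)) : ℕ) * (dz i ((Fin.cons u (ebt (k + 1)) :
      Fin (k + 2) → CN (k + 1)) 0) * D (k + 1) ((0 : Fin (k + 2)).removeNth
        (Fin.cons u (ebt (k + 1)) : Fin (k + 2) → CN (k + 1)))) = u i := by
    have e : (0 : Fin (k + 2)).removeNth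
        (Fin.cons u (ebt (k + 1)) : Fin (k + 2) → CN (k + 1)) = ebt (k + 1) := by
      funext r
      simp [Fin.removeNth]
    rw [e, D_ebt]
    simp
  rw [h0, sub_eq_add_neg]
  congr 1
  rw [Finset.sum_eq_single i]
  · have e : (Fin.succ i).removeNth (Fin.cons u (ebt (k + 1)) : Fin (k + 2) → CN (k + 1)) =
        Fin.cons u (fun r : Fin k => eb (i.succAbove r)) := by
      funext r
      refine Fin.cases ?_ (fun r => ?_) r
      · simp [Fin.removeNth]
      · simp [Fin.removeNth, Fin.succ_succAbove_succ, ebt]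
    rw [e, D_apply]
    have h1 : Matrix.det (Matrix.of (Fin.cons u (fun r : Fin k => eb (i.succAbove r)) :
        Fin (k + 1) → CN (k + 1))) = (-1) ^ (i : ℕ) * u i := by
      rw [Matrix.det_succ_row_zero, Finset.sum_eq_single i]
      · have e1 : ((Matrix.of (Fin.cons u (fun r : Fin k => eb (i.succAbove r)) :
          Fin (k + 1) → CN (k + 1))).submatrix Fin.succ i.succAbove) =
            Matrix.of fun r l : Fin k =>
              (eb (i.succAbove r) : CN (k + 1)) (i.succAbove l) := by
          ext r l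
          simp
        rw [e1, det_minor]
        simp
      · intro c _ hne
        have e1 : ((Matrix.of (Fin.cons u (fun r : Fin k => eb (i.succAbove r)) :
          Fin (k + 1) → CN (k + 1))).submatrix Fin.succ c.succAbove) =
            Matrix.of fun r l : Fin k =>
              (eb (i.succAbove r) : CN (k + 1)) (c.succAbove l) := by
          ext r l
          simp
        rw [e1, det_minor, if_neg (Ne.symm hne), mul_zero]
      · intro h
        exact absurd (Finset.mem_univ i) h
    rw [h1, map_mul, map_pow]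
    have h2 : ((-1 : ℂ) ^ (i : ℕ)) * (-1 : ℂ) ^ (i : ℕ) = 1 := by
      rw [← mul_pow]; simp
    have h3 : dz i ((Fin.cons u (ebt (k + 1)) : Fin (k + 2) → CN (k + 1)) (Fin.succ i)) = 1 := by
      simp [ebt, eb]
    rw [h3, Fin.val_succ, pow_succ]
    simp only [map_neg, map_one]
    linear_combination (-(starRingEnd ℂ) (u i)) * h2
  · intro r _ hne
    have h3 : dz i ((Fin.cons u (ebt (k + 1)) : Fin (k + 2) → CN (k + 1)) (Fin.succ r)) = 0 := by
      simp [ebt, eb, Ne.symm hne]
    rw [h3, zero_mul, mul_zero]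
  · intro h
    exact absurd (Finset.mem_univ i) h

theorem extDeriv_const (n : ℕ) (a : Alt n n) (y : CN n) :
    extDeriv (fun _ : CN n => a) y = 0 := by
  have h : fderiv ℝ (fun _ : CN n => a) y = 0 := by simp
  rw [extDeriv, h]
  ext v
  simp [ContinuousAlternatingMap.alternatizeUncurryFin_apply]

theorem extDeriv_eq (n : ℕ) (f : CN n → Alt n n) (y : CN n) (hf : DifferentiableAt ℝ f y)
    (h : ∀ᶠ z in 𝓝 y, IsType 0 n (f z)) :
    extDeriv f y = ∑ j, pd j (fun z => f z (ebt n)) y • wl (dz j) (D n) := by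
  have h1 : f =ᶠ[𝓝 y] fun z => (f z (ebt n)) • D n := by
    filter_upwards [h] with z hz
    exact eq_smul_D n (f z) hz
  rw [h1.extDeriv_eq]
  have hg : DifferentiableAt ℝ (fun z => f z (ebt n)) y := by
    have := (((evP n n 0 (ebt n)).hasFDerivAt.comp y hf.hasFDerivAt)).differentiableAt
    refine this.congr_of_eventuallyEq ?_
    filter_upwards [h] with z hz
    show f z (ebt n) = prj n 0 (f z) (ebt n)
    rw [prj_of_type 0 n _ (by omega) hz]
  rw [extDeriv_smul_fun (f := fun _ => D n) hg (differentiableAt_const _), extDeriv_const]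
  have h2 : (f y (ebt n)) • (0 : Alt n (n + 1)) = 0 := by
    ext v
    simp
  rw [h2, add_zero]
  conv_lhs => rw [eq_sum_comp (fderiv ℝ (fun z => f z (ebt n)) y)]
  rw [wl_sum_left]
  refine Finset.sum_congr rfl fun j _ => ?_
  rw [wl_add_left, wl_smul_left, wl_smul_left, wl_dzb_D]
  have h3 : comp01 (⇑(fderiv ℝ (fun z => f z (ebt n)) y)) j • (0 : Alt n (n + 1)) = 0 := by
    ext v
    simp
  rw [h3, add_zero]
  rfl

theorem main (_ : S_TYPE) (_ : S_VAN) (_ : S_DET) : S_LOCC := by
  intro n f y hf h
  rw [extDeriv_eq n f y hf h]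
  constructor
  · intro h0 j
    rcases n with _ | k
    · exact j.elim0
    have h1 := congrArg (fun a : Alt (k + 1) (k + 2) =>
      a (Fin.cons (Complex.I • eb j) (ebt (k + 1)))) h0
    simp only [ContinuousAlternatingMap.sum_apply, ContinuousAlternatingMap.smul_apply] at h1
    change _ = (0 : ℂ) at h1
    rw [Finset.sum_eq_single j] at h1
    · rw [wl_dz_D] at h1
      simp only [eb, Pi.smul_apply, Pi.single_eq_same, smul_eq_mul, mul_one, Complex.conj_I,
        sub_neg_eq_add] at h1
      rcases mul_eq_zero.1 h1 with h2 | h2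
      · exact h2
      · exfalso
        have := congrArg Complex.im h2
        simp at this
    · intro i _ hne
      rw [wl_dz_D]
      simp [eb, hne]
    · intro hn
      exact absurd (Finset.mem_univ j) hn
  · intro h0
    refine Finset.sum_eq_zero fun j _ => ?_
    rw [h0 j]
    ext v
    simp

end Pool.Agent.W800.FS.LocC
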