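import Pool.Agent.W491.FS.Stm

/-!
# Type decomposition of alternating forms
-/

open scoped Manifold ContDiff Topology

noncomputable section

namespace Pool.Agent.W800.FS.Typ

open Pool.Agent.W491.FS

variable {n k : ℕ}

theorem cl_add (a b : Alt n (k + 1)) (j : Fin n) : cl (a + b) j = cl a j + cl b j := by
  ext v
  simp only [cl, comp10, ContinuousAlternatingMap.curryLeft_add, add_apply,
    ContinuousAlternatingMap.smul_apply, ContinuousAlternatingMap.add_apply,
    ContinuousAlternatingMap.sub_apply, smul_eq_mul]
  ring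

theorem clb_add (a b : Alt n (k + 1)) (j : Fin n) : clb (a + b) j = clb a j + clb b j := by
  ext v
  simp only [clb, comp01, ContinuousAlternatingMap.curryLeft_add, add_apply,
    ContinuousAlternatingMap.smul_apply, ContinuousAlternatingMap.add_apply, smul_eq_mul]
  ring

theorem cl_smul (r : ℂ) (a : Alt n (k + 1)) (j : Fin n) : cl (r • a) j = r • cl a j := by
  ext v
  simp only [cl, comp10, ContinuousAlternatingMap.curryLeft_apply_apply,
    ContinuousAlternatingMap.smul_apply,
    ContinuousAlternatingMap.sub_apply, smul_eq_mul]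
  ring

theorem clb_smul (r : ℂ) (a : Alt n (k + 1)) (j : Fin n) : clb (r • a) j = r • clb a j := by
  ext v
  simp only [clb, comp01, ContinuousAlternatingMap.curryLeft_apply_apply,
    ContinuousAlternatingMap.smul_apply, ContinuousAlternatingMap.add_apply, smul_eq_mul]
  ring

theorem prj_succ_zero (a : Alt n (k + 1)) :
    prj (k + 1) 0 a = ((k : ℂ) + 1)⁻¹ • ∑ j, wl (dzb j) (prj k 0 (clb a j)) := by
  simp only [prj]

theorem prj_succ_succ (p : ℕ) (a : Alt n (k + 1)) :
    prj (k + 1) (p + 1) a = ((k : ℂ) + 1)⁻¹ •
      ∑ j, (wl (dz j) (prj k p (cl a j)) + wl (dzb j) (prj k (p + 1) (clb a j))) := by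
  simp only [prj]

theorem prj_add : ∀ (k p : ℕ) (a b : Alt n k), prj k p (a + b) = prj k p a + prj k p b
  | 0, 0, a, b => by simp only [prj]
  | 0, _ + 1, a, b => by simp only [prj, add_zero]
  | k + 1, 0, a, b => by
    rw [prj_succ_zero, prj_succ_zero, prj_succ_zero]
    refine Eq.trans ?_ (smul_add _ _ _)
    congr 1
    rw [← Finset.sum_add_distrib]
    refine Finset.sum_congr rfl fun j _ => ?_
    rw [clb_add, prj_add k 0, wl_add_right]
  | k + 1, p + 1, a, b => by
    rw [prj_succ_succ, prj_succ_succ, prj_succ_succ]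
    refine Eq.trans ?_ (smul_add _ _ _)
    congr 1
    rw [← Finset.sum_add_distrib]
    refine Finset.sum_congr rfl fun j _ => ?_
    rw [clb_add, cl_add, prj_add k p, prj_add k (p + 1), wl_add_right, wl_add_right]
    abel

theorem prj_smul : ∀ (k p : ℕ) (r : ℂ) (a : Alt n k), prj k p (r • a) = r • prj k p a
  | 0, 0, r, a => by simp only [prj]
  | 0, _ + 1, r, a => by
    simp only [prj]
    exact (smul_zero (A := Alt _ 0) r).symm
  | k + 1, 0, r, a => by
    rw [prj_succ_zero, prj_succ_zero]
    refine Eq.trans ?_ (smul_comm _ _ _)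
    congr 1
    refine Eq.trans ?_ (Finset.smul_sum).symm
    refine Finset.sum_congr rfl fun j _ => ?_
    rw [clb_smul, prj_smul k 0, wl_smul_right]
  | k + 1, p + 1, r, a => by
    rw [prj_succ_succ, prj_succ_succ]
    refine Eq.trans ?_ (smul_comm _ _ _)
    congr 1
    refine Eq.trans ?_ (Finset.smul_sum).symm
    refine Finset.sum_congr rfl fun j _ => ?_
    rw [clb_smul, cl_smul, prj_smul k p, prj_smul k (p + 1), wl_smul_right, wl_smul_right]
    exact (smul_add _ _ _).symm

/-- `prj` as a linear map -/
def prjL (n k p : ℕ) : Alt n k →ₗ[ℂ] Alt n k where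
  toFun := prj k p
  map_add' := prj_add k p
  map_smul' := prj_smul k p

@[simp] theorem prjL_apply (p : ℕ) (a : Alt n k) : prjL n k p a = prj k p a := rfl

theorem prj_zero (p : ℕ) : prj k p (0 : Alt n k) = 0 := (prjL n k p).map_zero

theorem prj_sum {ι : Type*} (s : Finset ι) (p : ℕ) (a : ι → Alt n k) :
    prj k p (∑ i ∈ s, a i) = ∑ i ∈ s, prj k p (a i) := map_sum (prjL n k p) a s

instance finAlt : FiniteDimensional ℝ (Alt n k) := by
  let F : Alt n k →ₗ[ℝ] MultilinearMap ℝ (fun _ : Fin k => CN n) ℂ :=
    { toFun := fun a => a.toMultilinearMap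
      map_add' := fun _ _ => rfl
      map_smul' := fun _ _ => rfl }
  refine FiniteDimensional.of_injective F ?_
  intro a b h
  ext v
  exact congrArg (fun g => g v) h

/-- `prj` as a continuous real linear map -/
def prjC (n k p : ℕ) : Alt n k →L[ℝ] Alt n k where
  toFun := prj k p
  map_add' := prj_add k p
  map_smul' := fun r a => by
    have h : ∀ b : Alt n k, r • b = (r : ℂ) • b := fun b => by
      ext v
      simp
    rw [h, prj_smul, ← h]
    rfl
  cont := by
    have h : ∀ (r : ℝ) (b : Alt n k), r • b = (r : ℂ) • b := fun r b => by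
      ext v
      simp
    exact LinearMap.continuous_of_finiteDimensional
      ({ toFun := prj k p
         map_add' := prj_add k p
         map_smul' := fun r a => by
          rw [h, prj_smul, ← h]
          rfl } : Alt n k →ₗ[ℝ] Alt n k)

theorem prj_lt : ∀ (k p : ℕ) (a : Alt n k), k < p → prj k p a = 0
  | 0, 0, a, h => absurd h (by omega)
  | 0, p + 1, a, h => by simp only [prj]
  | k + 1, 0, a, h => absurd h (by omega)
  | k + 1, p + 1, a, h => by
    rw [prj_succ_succ]
    rw [Finset.sum_eq_zero]
    · exact smul_zero _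
    intro j _
    rw [prj_lt k p _ (by omega), prj_lt k (p + 1) _ (by omega), wl_zero_right, wl_zero_right,
      add_zero]

theorem prj_type : ∀ (k p : ℕ) (a : Alt n k), p ≤ k → IsType p (k - p) (prj k p a)
  | 0, 0, a, _ => by
    intro l v
    have : (fun i : Fin 0 => l • v i) = v := by
      funext i
      exact i.elim0
    simp [prj, this]
  | 0, p + 1, a, h => absurd h (by omega)
  | k + 1, 0, a, _ => by
    rw [prj_succ_zero]
    refine IsType.smul (IsType.sum _ fun j _ => ?_) _
    have h1 := prj_type k 0 (clb a j) (Nat.zero_le _)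
    exact IsType.wl_anti h1 (fun c v => by simp)
  | k + 1, p + 1, a, h => by
    rw [prj_succ_succ]
    refine IsType.smul (IsType.sum _ fun j _ => ?_) _
    refine IsType.add ?_ ?_
    · have h1 := prj_type k p (cl a j) (by omega)
      have h2 := IsType.wl_holo h1 (l := dz j) (fun c v => by simp)
      have e : k + 1 - (p + 1) = k - p := by omega
      rw [e]
      exact h2
    · rcases Nat.lt_or_ge k (p + 1) with hlt | hge
      · have h0 : prj k (p + 1) (clb a j) = 0 := prj_lt k (p + 1) (clb a j) hlt
        rw [h0, wl_zero_right]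
        exact IsType.zero
      · have h1 := prj_type k (p + 1) (clb a j) hge
        have h2 := IsType.wl_anti h1 (l := dzb j) (fun c v => by simp)
        have e : k + 1 - (p + 1) = k - (p + 1) + 1 := by omega
        rw [e]
        exact h2

theorem decomp (a : Alt n (k + 1)) :
    a = ((k : ℂ) + 1)⁻¹ • ∑ j, (wl (dz j) (cl a j) + wl (dzb j) (clb a j)) := by
  have h1 := alternatize_decomp a.curryLeft
  rw [ContinuousAlternatingMap.alternatizeUncurryFin_curryLeft] at h1
  have h2 : ∑ j, (wl (dz j) (cl a j) + wl (dzb j) (clb a j)) = (k + 1) • a := h1.symm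
  rw [h2]
  ext v
  have hk : ((k : ℂ) + 1) ≠ 0 := by exact_mod_cast Nat.succ_ne_zero k
  simp only [ContinuousAlternatingMap.smul_apply, smul_eq_mul, nsmul_eq_mul]
  push_cast
  field_simp

theorem prj_sum_eq : ∀ (k : ℕ) (a : Alt n k), ∑ p ∈ Finset.range (k + 1), prj k p a = a
  | 0, a => by simp [prj]
  | k + 1, a => by
    rw [Finset.sum_range_succ']
    simp only [prj_succ_zero, prj_succ_succ]
    rw [← Finset.smul_sum, ← smul_add]
    conv_rhs => rw [decomp a]
    congr 1
    rw [Finset.sum_comm, ← Finset.sum_add_distrib]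
    refine Finset.sum_congr rfl fun j _ => ?_
    rw [Finset.sum_add_distrib, ← wl_sum_right, prj_sum_eq k (cl a j), add_assoc, ← wl_sum_right,
      ← wl_add_right]
    have h1 : ∑ p ∈ Finset.range (k + 1), prj k (p + 1) (clb a j) + prj k 0 (clb a j) =
        clb a j := by
      rw [← Finset.sum_range_succ' (fun p => prj k p (clb a j)), Finset.sum_range_succ,
        prj_lt k (k + 1) _ (by omega), add_zero, prj_sum_eq k]
    rw [h1]

/-- uniqueness of the components -/
theorem type_unique (b : ℕ → Alt n k) (hb : ∀ p ≤ k, IsType p (k - p) (b p)) (q : ℕ) (a : Alt n k)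
    (hq : q ≤ k) (ha : IsType q (k - q) a) (hs : ∑ p ∈ Finset.range (k + 1), b p = a) (p : ℕ)
    (hp : p ≤ k) : b p = if p = q then a else 0 := by
  classical
  -- a polynomial identity on the unit circle
  have key : ∀ v : Fin k → CN n,
      (∑ p ∈ Finset.range (k + 1), Polynomial.monomial (2 * p) (b p v)) =
        Polynomial.monomial (2 * q) (a v) := by
    intro v
    apply Polynomial.eq_of_infinite_eval_eq
    refine Set.Infinite.mono (s := Set.range fun t : ℝ => Complex.exp (t * Complex.I)) ?_ ?_
    · rintro _ ⟨t, rfl⟩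
      set l := Complex.exp (t * Complex.I) with hl
      have hll : l * starRingEnd ℂ l = 1 := by
        rw [Complex.mul_conj, Complex.normSq_eq_norm_sq, hl, Complex.norm_exp_ofReal_mul_I]
        simp
      have hpow : ∀ p ≤ k, l ^ k * (l ^ p * (starRingEnd ℂ l) ^ (k - p)) = l ^ (2 * p) := by
        intro p hp
        have : l ^ k = l ^ p * l ^ (k - p) := by rw [← pow_add]; congr 1; omega
        rw [this]
        calc l ^ p * l ^ (k - p) * (l ^ p * (starRingEnd ℂ l) ^ (k - p)) =
            l ^ (2 * p) * (l * starRingEnd ℂ l) ^ (k - p) := by ring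
          _ = l ^ (2 * p) := by rw [hll, one_pow, mul_one]
      show Polynomial.eval l _ = Polynomial.eval l _
      rw [Polynomial.eval_finsetSum, Polynomial.eval_monomial]
      simp only [Polynomial.eval_monomial]
      have h1 := congrArg (fun g : Alt n k => l ^ k * g (fun i => l • v i)) hs
      simp only [ContinuousAlternatingMap.sum_apply] at h1
      rw [ha l v, Finset.mul_sum] at h1
      have h2 : l ^ k * (l ^ q * (starRingEnd ℂ l) ^ (k - q) * a v) = a v * l ^ (2 * q) := by
        rw [← mul_assoc, hpow q hq, mul_comm]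
      rw [h2] at h1
      rw [← h1]
      refine Finset.sum_congr rfl fun p hp => ?_
      have hp' : p ≤ k := by
        have := Finset.mem_range.1 hp
        omega
      rw [hb p hp' l v, ← mul_assoc, hpow p hp', mul_comm]
    · have hsub : (Metric.sphere (0 : ℂ) 1) ⊆ Set.range fun t : ℝ => Complex.exp (t * Complex.I) := by
        intro z hz
        have hz1 : ‖z‖ = 1 := by simpa using hz
        exact ⟨z.arg, by
          have := Complex.norm_mul_exp_arg_mul_I z
          rw [hz1] at this
          simpa using this⟩
      refine Set.Infinite.mono hsub ?_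
      intro hfin
      have hinj : Set.InjOn (fun m : ℕ => Complex.exp ((1 / ((m : ℝ) + 1) : ℝ) * Complex.I))
          Set.univ := by
        intro m _ m' _ h
        have h' : Complex.exp ((1 / ((m : ℝ) + 1) : ℝ) * Complex.I) =
          Complex.exp ((1 / ((m' : ℝ) + 1) : ℝ) * Complex.I) := h
        have hpos : ∀ m : ℕ, (0 : ℝ) < 1 / ((m : ℝ) + 1) ∧ 1 / ((m : ℝ) + 1) ≤ 1 := by
          intro m
          have : (0 : ℝ) ≤ m := Nat.cast_nonneg m
          constructor
          · positivity
          · rw [div_le_one (by positivity)]; linarith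
        have e1 : ∀ m : ℕ, Complex.arg (Complex.exp ((1 / ((m : ℝ) + 1) : ℝ) * Complex.I)) =
            1 / ((m : ℝ) + 1) := by
          intro m
          have := hpos m
          rw [Complex.arg_exp_mul_I, toIocMod_eq_self]
          constructor
          · have := Real.pi_pos; linarith
          · have := Real.pi_gt_three; linarith
        have h2 := congrArg Complex.arg h'
        rw [e1, e1] at h2
        have h3 : ((m : ℝ) + 1) = (m' : ℝ) + 1 := by
          have := congrArg (fun x : ℝ => x⁻¹) h2
          simpa using this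
        exact_mod_cast (add_right_cancel h3)
      refine (Set.infinite_univ (α := ℕ)).image hinj (hfin.subset ?_)
      rintro _ ⟨m, _, rfl⟩
      show _ ∈ Metric.sphere (0 : ℂ) 1
      rw [mem_sphere_zero_iff_norm]
      exact Complex.norm_exp_ofReal_mul_I _
  ext v
  have h1 := congrArg (fun P => Polynomial.coeff P (2 * p)) (key v)
  simp only [Polynomial.finsetSum_coeff, Polynomial.coeff_monomial] at h1
  rw [Finset.sum_eq_single p] at h1
  · simp only [if_true] at h1
    rw [h1]
    by_cases hpq : p = q
    · subst hpq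
      simp
    · have : ¬ (2 * q = 2 * p) := by omega
      simp [hpq, this]
  · intro p' _ hne
    have : ¬ (2 * p' = 2 * p) := by omega
    simp [this]
  · intro hnot
    exact absurd (Finset.mem_range.2 (by omega)) hnot

theorem prj_of_type (p q : ℕ) (a : Alt n k) (h : p + q = k) (ha : IsType p q a) :
    prj k p a = a := by
  have hq : q = k - p := by omega
  subst hq
  have := type_unique (fun p => prj k p a) (fun p hp => prj_type k p a hp) p a (by omega) ha
    (prj_sum_eq k a) p (by omega)
  simpa using this

theorem prj_of_type_ne (p p' q' : ℕ) (a : Alt n k) (h : p' + q' = k) (hne : p ≠ p')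
    (ha : IsType p' q' a) : prj k p a = 0 := by
  rcases Nat.lt_or_ge k p with hlt | hge
  · exact prj_lt k p a hlt
  have hq : q' = k - p' := by omega
  subst hq
  have := type_unique (fun p => prj k p a) (fun p hp => prj_type k p a hp) p' a (by omega) ha
    (prj_sum_eq k a) p hge
  simpa [hne] using this

theorem prj_pb (m : ℕ) (L : CN m →L[ℝ] CN n) (hL : ∀ (c : ℂ) v, L (c • v) = c • L v)
    (p : ℕ) (a : Alt n k) : prj k p (pb a L) = pb (prj k p a) L := by
  classical
  rcases Nat.lt_or_ge k p with hlt | hge
  · rw [prj_lt k p _ hlt, prj_lt k p _ hlt]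
    ext v
    simp
  have htype : ∀ p' ≤ k, IsType p' (k - p') (pb (prj k p' a) L) := by
    intro p' hp' l v
    have h1 := prj_type k p' a hp' l (fun i => L (v i))
    simp only [ContinuousAlternatingMap.compContinuousLinearMap_apply]
    have e : (⇑L ∘ fun i => l • v i) = fun i => l • L (v i) := by
      funext i
      exact hL l (v i)
    rw [e, h1]
    rfl
  have hsum : pb a L = ∑ p' ∈ Finset.range (k + 1), pb (prj k p' a) L := by
    conv_lhs => rw [← prj_sum_eq k a]
    ext v
    simp only [ContinuousAlternatingMap.compContinuousLinearMap_apply,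
      ContinuousAlternatingMap.sum_apply]
  rw [hsum, prj_sum, Finset.sum_eq_single p]
  · exact prj_of_type p (k - p) _ (by omega) (htype p hge)
  · intro p' hp' hne
    have hp'' : p' ≤ k := by
      have := Finset.mem_range.1 hp'
      omega
    exact prj_of_type_ne p p' (k - p') _ (by omega) (Ne.symm hne) (htype p' hp'')
  · intro hnot
    exact absurd (Finset.mem_range.2 (by omega)) hnot

theorem main : S_TYPE := by
  intro n k
  refine ⟨fun p => ⟨prjC n k p, fun a => rfl⟩, prj_smul k, prj_type k, prj_lt k, prj_sum_eq k,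
    prj_of_type, prj_of_type_ne, fun m L hL p a => prj_pb m L hL p a⟩

end Pool.Agent.W800.FS.Typ
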