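import Pool.Agent.W800.FS.Wd

noncomputable section

namespace Pool.Agent.W800.FS.Van

open Pool.Agent.W491.FS

theorem main (h : S_TYPE) : S_VAN := Pool.Agent.W800.FS.Wd.van h

end Pool.Agent.W800.FS.Van
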