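import Pool.Agent.W800.FS.Wd

/-!
# The value of the volume form of a coframe
-/

open scoped Manifold ContDiff Topology

noncomputable section

namespace Pool.Agent.W800.FS.Vol

open Pool.Agent.W491.FS Pool.Agent.W800.FS.Typ Pool.Agent.W800.FS.Wd

theorem flat_length {α β : Type*} (f g : α → β) (L : List α) :
    (L.flatMap fun a => [f a, g a]).length = 2 * L.length := by
  induction L with
  | nil => simp
  | cons a L ih =>
    rw [List.flatMap_cons, List.length_append, ih]
    simp only [List.length_cons, List.length_nil]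
    omega

theorem flat_even {α β : Type*} (f g : α → β) : ∀ (L : List α) (i : ℕ),
    (L.flatMap fun a => [f a, g a])[2 * i]? = (L[i]?).map f
  | [], i => by simp
  | a :: L, 0 => by simp
  | a :: L, i + 1 => by
    have e : 2 * (i + 1) = 2 * i + 1 + 1 := by ring
    rw [List.flatMap_cons, e]
    simp only [List.cons_append, List.nil_append, List.getElem?_cons_succ]
    exact flat_even f g L i

theorem flat_odd {α β : Type*} (f g : α → β) : ∀ (L : List α) (i : ℕ),
    (L.flatMap fun a => [f a, g a])[2 * i + 1]? = (L[i]?).map g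
  | [], i => by simp
  | a :: L, 0 => by simp
  | a :: L, i + 1 => by
    have e : 2 * (i + 1) + 1 = 2 * i + 1 + 1 + 1 := by ring
    rw [List.flatMap_cons, e]
    simp only [List.cons_append, List.nil_append, List.getElem?_cons_succ]
    exact flat_odd f g L i

variable {n : ℕ}

theorem vol_length (η : Fin n → Cov n) : (volList η).length = 2 * n := by
  rw [volList, flat_length, List.length_finRange]

theorem vol_even (η : Fin n → Cov n) (i : Fin n) (h : 2 * (i : ℕ) < (volList η).length) :
    (volList η)[2 * (i : ℕ)] = η i := by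
  have h1 := flat_even η (fun i => cjCov (η i)) (List.finRange n) i
  have h2 : (volList η)[2 * (i : ℕ)]? = some (η i) := by
    rw [volList, h1]
    simp
  rw [List.getElem?_eq_getElem h] at h2
  exact Option.some_injective _ h2

theorem vol_odd (η : Fin n → Cov n) (i : Fin n) (h : 2 * (i : ℕ) + 1 < (volList η).length) :
    (volList η)[2 * (i : ℕ) + 1] = cjCov (η i) := by
  have h1 := flat_odd η (fun i => cjCov (η i)) (List.finRange n) i
  have h2 : (volList η)[2 * (i : ℕ) + 1]? = some (cjCov (η i)) := by
    rw [volList, h1]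
    simp
  rw [List.getElem?_eq_getElem h] at h2
  exact Option.some_injective _ h2

/-- the reindexing -/
def idx (n m : ℕ) (h : m = 2 * n) : Fin n ⊕ Fin n ≃ Fin m where
  toFun := Sum.elim (fun i => ⟨2 * i, by omega⟩) (fun i => ⟨2 * i + 1, by omega⟩)
  invFun j := if (j : ℕ) % 2 = 0 then Sum.inl ⟨j / 2, by omega⟩ else Sum.inr ⟨j / 2, by omega⟩
  left_inv x := by
    rcases x with i | i
    · simp
    · have h1 : (2 * (i : ℕ) + 1) % 2 = 1 := by omega
      have h2 : (2 * (i : ℕ) + 1) / 2 = i := by omega
      simp [h1, h2]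
  right_inv j := by
    apply Fin.ext
    by_cases hj : (j : ℕ) % 2 = 0
    · simp only [hj, if_true, Sum.elim_inl]
      omega
    · simp only [hj, if_false, Sum.elim_inr]
      omega

/-- the matrix of values -/
def A (η : Fin n → Cov n) : Matrix (Fin n) (Fin n) ℂ := Matrix.of fun i j => η i (eb j)

theorem rb_even (m : ℕ) (h : m = 2 * n) (i : Fin n) :
    rb n m (idx n m h (Sum.inl i)) = eb i := by
  have h1 : (2 * (i : ℕ)) / 2 = i := by omega
  have h2 : (2 * (i : ℕ)) % 2 = 0 := by omega
  simp [rb, idx]

theorem rb_odd (m : ℕ) (h : m = 2 * n) (i : Fin n) :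
    rb n m (idx n m h (Sum.inr i)) = Complex.I • eb i := by
  have h1 : (2 * (i : ℕ) + 1) / 2 = i := by omega
  have h2 : (2 * (i : ℕ) + 1) % 2 = 1 := by omega
  simp [rb, idx, h1, h2]

theorem det_block (B : Matrix (Fin n) (Fin n) ℂ) :
    Matrix.det (Matrix.fromBlocks B (Complex.I • B) (B.map (starRingEnd ℂ))
      (-(Complex.I • B.map (starRingEnd ℂ)))) =
      (-2 * Complex.I) ^ n * ((‖Matrix.det B‖ ^ 2 : ℝ) : ℂ) := by
  have h1 : Matrix.fromBlocks B (Complex.I • B) (B.map (starRingEnd ℂ))
      (-(Complex.I • B.map (starRingEnd ℂ))) =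
      Matrix.fromBlocks B 0 0 (B.map (starRingEnd ℂ)) *
        Matrix.fromBlocks 1 (Complex.I • (1 : Matrix (Fin n) (Fin n) ℂ)) 1
          (-(Complex.I • (1 : Matrix (Fin n) (Fin n) ℂ))) := by
    rw [Matrix.fromBlocks_multiply]
    simp
  rw [h1, Matrix.det_mul, Matrix.det_fromBlocks_zero₂₁, Matrix.det_fromBlocks_one₁₁]
  have h2 : -(Complex.I • (1 : Matrix (Fin n) (Fin n) ℂ)) -
      1 * (Complex.I • (1 : Matrix (Fin n) (Fin n) ℂ)) =
      (-2 * Complex.I) • (1 : Matrix (Fin n) (Fin n) ℂ) := by
    rw [one_mul, ← neg_smul, ← sub_smul]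
    congr 1
    ring
  rw [h2, Matrix.det_smul, Matrix.det_one, mul_one, Fintype.card_fin, mul_comm]
  congr 1
  have h3 := (starRingEnd ℂ).map_det B
  have h4 : (starRingEnd ℂ).mapMatrix B = B.map (starRingEnd ℂ) := rfl
  rw [h4] at h3
  rw [← h3, Complex.mul_conj, Complex.normSq_eq_norm_sq]

theorem det_ne (η : Fin n → Cov n) (hη : ∀ i (c : ℂ) v, η i (c • v) = c * η i v)
    (hi : LinearIndependent ℂ η) : Matrix.det (A η) ≠ 0 := by
  have h1 : LinearIndependent ℂ (A η).row := by
    rw [Fintype.linearIndependent_iff] at hi ⊢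
    intro g hg
    refine hi g ?_
    ext v
    have hv : v = ∑ j, v j • (eb j : CN n) := by
      funext i
      simp [eb, Pi.single_apply]
    have e1 : ∀ i, η i v = ∑ j, v j * A η i j := by
      intro i
      conv_lhs => rw [hv]
      rw [map_sum]
      refine Finset.sum_congr rfl fun j _ => ?_
      rw [hη]
      rfl
    rw [_root_.sum_apply]
    have e2 : ∀ i, (g i • η i) v = g i * η i v := fun i => rfl
    simp only [e2, e1, Finset.mul_sum]
    rw [Finset.sum_comm]
    refine Finset.sum_eq_zero fun j _ => ?_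
    have e3 := congrFun hg j
    simp only [Finset.sum_apply, Pi.smul_apply, Matrix.row, smul_eq_mul, Pi.zero_apply] at e3
    have e4 : ∑ i, g i * (v j * A η i j) = v j * ∑ i, g i * A η i j := by
      rw [Finset.mul_sum]
      exact Finset.sum_congr rfl fun i _ => by ring
    rw [e4, e3, mul_zero]
  rw [Matrix.linearIndependent_rows_iff_isUnit, Matrix.isUnit_iff_isUnit_det] at h1
  exact h1.ne_zero

theorem main : S_VOL := by
  intro n η hη hi
  have h0 := det_ne η hη hi
  refine ⟨‖Matrix.det (A η)‖ ^ 2, by positivity, ?_⟩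
  intro m hm
  have hl : (volList η).length = m := by rw [vol_length, hm]
  rw [wlist_det (volList η) m hl, ← det_block, ← Matrix.det_submatrix_equiv_self (idx n m hm)]
  congr 1
  have g1 : ∀ i : Fin n, (volList η).get ((idx n m hm (Sum.inl i)).cast hl.symm) = η i := by
    intro i
    exact vol_even η i _
  have g2 : ∀ i : Fin n, (volList η).get ((idx n m hm (Sum.inr i)).cast hl.symm) =
      cjCov (η i) := by
    intro i
    exact vol_odd η i _
  ext a b
  rcases a with i | i <;> rcases b with j | j
  · simp only [Matrix.submatrix_apply, Matrix.of_apply, g1, rb_even, Matrix.fromBlocks_apply₁₁]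
    rfl
  · simp only [Matrix.submatrix_apply, Matrix.of_apply, g1, rb_odd, Matrix.fromBlocks_apply₁₂, hη]
    rfl
  · simp only [Matrix.submatrix_apply, Matrix.of_apply, g2, rb_even, Matrix.fromBlocks_apply₂₁,
      cjCov_apply]
    rfl
  · simp only [Matrix.submatrix_apply, Matrix.of_apply, g2, rb_odd, Matrix.fromBlocks_apply₂₂,
      cjCov_apply, hη, map_mul, Complex.conj_I]
    show _ = -(Complex.I * starRingEnd ℂ (η i (eb j)))
    ring

end Pool.Agent.W800.FS.Vol
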