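import Pool.Agent.W800.FS.Typ

/-!
# Words in the standard covectors
-/

open scoped Manifold ContDiff Topology

noncomputable section

namespace Pool.Agent.W800.FS.Wd

open Pool.Agent.W491.FS Pool.Agent.W800.FS.Typ

variable {n k : ℕ}

/-- a letter -/
def lt : Fin n ⊕ Fin n → Cov n := Sum.elim dz dzb

/-- the word as a form of degree `k` -/
def word (L : List (Fin n ⊕ Fin n)) (k : ℕ) : Alt n k := wlist (L.map lt) k

theorem wlist_cons (l : Cov n) (L : List (Cov n)) (k : ℕ) :
    wlist (l :: L) (k + 1) = wl l (wlist L k) := rfl

theorem wlist_nil : wlist ([] : List (Cov n)) 0 =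
    ContinuousAlternatingMap.constOfIsEmpty ℝ (CN n) (Fin 0) 1 := rfl

theorem word_cons (l : Fin n ⊕ Fin n) (L : List (Fin n ⊕ Fin n)) (k : ℕ) :
    word (l :: L) (k + 1) = wl (lt l) (word L k) := rfl

/-- every form is a combination of words -/
theorem mem_span_words : ∀ (k : ℕ) (a : Alt n k),
    a ∈ Submodule.span ℂ (Set.range fun L : {L : List (Fin n ⊕ Fin n) // L.length = k} =>
      word L.1 k)
  | 0, a => by
    have h : a = (a 0) • word ([] : List (Fin n ⊕ Fin n)) 0 := by
      ext v
      have hv : v = 0 := by
        funext i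
        exact i.elim0
      subst hv
      simp [word, wlist_nil]
    rw [h]
    exact Submodule.smul_mem _ _ (Submodule.subset_span ⟨⟨[], rfl⟩, rfl⟩)
  | k + 1, a => by
    have hwl : ∀ (l : Fin n ⊕ Fin n) (b : Alt n k),
        wl (lt l) b ∈ Submodule.span ℂ
          (Set.range fun L : {L : List (Fin n ⊕ Fin n) // L.length = k + 1} =>
            word L.1 (k + 1)) := by
      intro l b
      have hb := mem_span_words k b
      have h1 : (wlB n k (lt l)) b ∈ Submodule.map (wlB n k (lt l)) (Submodule.span ℂ
          (Set.range fun L : {L : List (Fin n ⊕ Fin n) // L.length = k} => word L.1 k)) :=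
        Submodule.mem_map_of_mem hb
      rw [Submodule.map_span] at h1
      refine Submodule.span_mono ?_ h1
      rintro _ ⟨_, ⟨⟨L, hL⟩, rfl⟩, rfl⟩
      exact ⟨⟨l :: L, by simp [hL]⟩, rfl⟩
    rw [decomp a]
    refine Submodule.smul_mem _ _ (Submodule.sum_mem _ fun j _ => Submodule.add_mem _ ?_ ?_)
    · exact hwl (Sum.inl j) _
    · exact hwl (Sum.inr j) _

theorem wl_word_eq_zero (l : Fin n ⊕ Fin n) : ∀ (L : List (Fin n ⊕ Fin n)) (k : ℕ), l ∈ L →
    wl (lt l) (word L k) = 0
  | [], k, h => by simp at h
  | m :: L, 0, h => by
    have : word (m :: L) 0 = 0 := rfl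
    rw [this, wl_zero_right]
  | m :: L, k + 1, h => by
    rw [word_cons]
    rcases List.mem_cons.1 h with h | h
    · rw [h, wl_wl_self]
    · rw [wl_anticomm, wl_word_eq_zero l L k h, wl_zero_right, neg_zero]

theorem word_eq_zero : ∀ (L : List (Fin n ⊕ Fin n)) (k : ℕ), L.length = k → ¬ L.Nodup →
    word L k = 0
  | [], k, _, h => by simp at h
  | m :: L, 0, h, _ => by simp at h
  | m :: L, k + 1, hk, h => by
    rw [word_cons]
    rw [List.nodup_cons, not_and_or, not_not] at h
    rcases h with h | h
    · exact wl_word_eq_zero m L k h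
    · rw [word_eq_zero L k (by simpa using hk) h, wl_zero_right]

theorem word_type : ∀ (L : List (Fin n ⊕ Fin n)) (k : ℕ), L.length = k →
    IsType (L.countP Sum.isLeft) (L.countP Sum.isRight) (word L k)
  | [], 0, _ => by
    intro l v
    simp [word, wlist_nil]
  | [], k + 1, h => by simp at h
  | m :: L, 0, h => by simp at h
  | m :: L, k + 1, h => by
    have ih := word_type L k (by simpa using h)
    rw [word_cons]
    rcases m with j | j
    · have e1 : List.countP Sum.isLeft (Sum.inl j :: L) = List.countP Sum.isLeft L + 1 :=
        List.countP_cons_of_pos rfl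
      have e2 : List.countP Sum.isRight (Sum.inl j :: L) = List.countP Sum.isRight L :=
        List.countP_cons_of_neg (by simp)
      rw [e1, e2]
      exact IsType.wl_holo ih (l := dz j) (fun c v => by simp)
    · have e1 : List.countP Sum.isRight (Sum.inr j :: L) = List.countP Sum.isRight L + 1 :=
        List.countP_cons_of_pos rfl
      have e2 : List.countP Sum.isLeft (Sum.inr j :: L) = List.countP Sum.isLeft L :=
        List.countP_cons_of_neg (by simp)
      rw [e1, e2]
      exact IsType.wl_anti ih (l := dzb j) (fun c v => by simp)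

theorem count_add (L : List (Fin n ⊕ Fin n)) :
    L.countP Sum.isLeft + L.countP Sum.isRight = L.length := by
  induction L with
  | nil => simp
  | cons m L ih =>
    rcases m with j | j
    · simp only [List.countP_cons, List.length_cons, Sum.isLeft_inl, Sum.isRight_inl]
      simp only [if_true, Bool.false_eq_true, if_false]
      omega
    · simp only [List.countP_cons, List.length_cons, Sum.isLeft_inr, Sum.isRight_inr]
      simp only [if_true, Bool.false_eq_true, if_false]
      omega

theorem card_left (L : List (Fin n ⊕ Fin n)) (h : L.Nodup) : L.countP Sum.isLeft ≤ n := by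
  classical
  rw [List.countP_eq_length_filter, ← List.toFinset_card_of_nodup (h.filter _)]
  have : (L.filter Sum.isLeft).toFinset ⊆ (Finset.univ : Finset (Fin n)).map
      ⟨Sum.inl, Sum.inl_injective⟩ := by
    intro x hx
    rw [List.mem_toFinset, List.mem_filter] at hx
    rcases x with j | j
    · simp
    · simp at hx
  simpa using Finset.card_le_card this

theorem card_right (L : List (Fin n ⊕ Fin n)) (h : L.Nodup) : L.countP Sum.isRight ≤ n := by
  classical
  rw [List.countP_eq_length_filter, ← List.toFinset_card_of_nodup (h.filter _)]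
  have : (L.filter Sum.isRight).toFinset ⊆ (Finset.univ : Finset (Fin n)).map
      ⟨Sum.inr, Sum.inr_injective⟩ := by
    intro x hx
    rw [List.mem_toFinset, List.mem_filter] at hx
    rcases x with j | j
    · simp at hx
    · simp
  simpa using Finset.card_le_card this

/-- two linear maps agree if they agree on words -/
theorem prj_van (k p : ℕ) (a : Alt n k) (hp : p ≤ k) (h : n < p ∨ n < k - p) :
    prj k p a = 0 := by
  have h1 : Submodule.span ℂ (Set.range fun L : {L : List (Fin n ⊕ Fin n) // L.length = k} =>
      word L.1 k) ≤ LinearMap.ker (prjL n k p) := by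
    rw [Submodule.span_le]
    rintro _ ⟨⟨L, hL⟩, rfl⟩
    show prj k p (word L k) = 0
    by_cases hc : p = L.countP Sum.isLeft
    · by_cases hn : L.Nodup
      · exfalso
        have c1 := card_left L hn
        have c2 := card_right L hn
        have c3 := count_add L
        omega
      · rw [word_eq_zero L k hL hn]
        exact prj_zero p
    · exact prj_of_type_ne p _ _ _ (by rw [count_add, hL]) hc (word_type L k hL)
  exact h1 (mem_span_words k a)

theorem van (_ : S_TYPE) : S_VAN := fun _ k p a hp h => prj_van k p a hp h

/-- the determinant formula -/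
theorem wlist_det : ∀ (L : List (Cov n)) (m : ℕ) (h : L.length = m) (v : Fin m → CN n),
    wlist L m v = Matrix.det (Matrix.of fun i j : Fin m => L.get (i.cast h.symm) (v j))
  | [], 0, h, v => by
    simp [wlist_nil]
  | [], m + 1, h, v => by simp at h
  | l :: L, 0, h, v => by simp at h
  | l :: L, m + 1, h, v => by
    have hL : L.length = m := by simpa using h
    rw [wlist_cons, wl_apply, Matrix.det_succ_row_zero]
    refine Finset.sum_congr rfl fun i _ => ?_
    rw [wlist_det L m hL]
    rw [mul_assoc]
    congr 2

end Pool.Agent.W800.FS.Wd
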